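import Pool.Agent.H49.FOS.S1

/-!
# FOS: numbers of conditions (HLV, NU1, NU2, NU3) and the general bound (GEN)
-/

set_option autoImplicit false

namespace Pool.FOS

theorem t_hlv : HLVStmt := by
  intro p N m D s r hD hh1 hr hrN
  have hm : 0 < m := by omega
  have key : m * hh p N (D - r * N) ≤ (m - r) * hh p N D := by
    unfold hh
    rw [Finset.mul_sum, Finset.mul_sum]
    refine Finset.sum_le_sum fun a _ => ?_
    set A := ∑ i, (a i : ℕ) with hA
    have h1 : D - r * N + 1 - A = (D + 1 - A) - r * N := by omega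
    rw [h1]
    set u := D + 1 - A with hu
    have hu2 : u ≤ m * N := by omega
    by_cases h : u ≤ r * N
    · rw [Nat.sub_eq_zero_of_le h, mul_zero]
      exact Nat.zero_le _
    · push Not at h
      obtain ⟨v, hv⟩ : ∃ v, u = r * N + v := ⟨u - r * N, by omega⟩
      obtain ⟨q, hq⟩ : ∃ q, m = r + q := ⟨m - r, by omega⟩
      have e1 : u - r * N = v := by omega
      have e2 : m - r = q := by omega
      rw [e1, e2, hv, hq]
      rw [hv, hq] at hu2
      have : v ≤ q * N := by nlinarith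
      nlinarith
  have h2 : (m - r) * hh p N D ≤ (m - r) * (s * m) := Nat.mul_le_mul_left _ hh1
  have h3 : m * hh p N (D - r * N) ≤ m * (s * (m - r)) := by
    calc m * hh p N (D - r * N) ≤ (m - r) * (s * m) := key.trans h2
      _ = m * (s * (m - r)) := by ring
  exact Nat.le_of_mul_le_mul_left h3 hm

theorem t_nu1 : NU1Stmt := by
  intro p N e hN he
  have hle : ∀ a : Fin p → Fin N, ∑ i, (a i : ℕ) ≤ p * (N - 1) := by
    intro a
    calc ∑ i, (a i : ℕ) ≤ ∑ _i : Fin p, (N - 1) :=
          Finset.sum_le_sum fun i _ => by have := (a i).2; omega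
      _ = p * (N - 1) := by simp
  have h1 : hh p N e + ∑ a : Fin p → Fin N, ∑ i, (a i : ℕ) = N ^ p * (e + 1) := by
    unfold hh
    rw [← Finset.sum_add_distrib]
    have : ∀ a : Fin p → Fin N, (e + 1 - ∑ i, (a i : ℕ)) + ∑ i, (a i : ℕ) = e + 1 := by
      intro a
      have := hle a
      omega
    rw [Finset.sum_congr rfl fun a _ => this a]
    simp
  have h2 : 2 * ∑ a : Fin p → Fin N, ∑ i, (a i : ℕ) = N ^ p * (p * (N - 1)) := by
    have hrev : ∑ a : Fin p → Fin N, ∑ i, (a i : ℕ) =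
        ∑ a : Fin p → Fin N, ∑ i, ((Fin.rev (a i) : Fin N) : ℕ) := by
      refine (Equiv.sum_comp (Equiv.arrowCongr (Equiv.refl (Fin p)) Fin.revPerm)
        (fun a : Fin p → Fin N => ∑ i, (a i : ℕ))).symm.trans ?_
      rfl
    rw [two_mul]
    nth_rewrite 2 [hrev]
    rw [← Finset.sum_add_distrib]
    have : ∀ a : Fin p → Fin N, ∑ i, (a i : ℕ) + ∑ i, ((Fin.rev (a i) : Fin N) : ℕ) =
        p * (N - 1) := by
      intro a
      rw [← Finset.sum_add_distrib]
      have : ∀ i : Fin p, (a i : ℕ) + ((Fin.rev (a i) : Fin N) : ℕ) = N - 1 := by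
        intro i
        rw [Fin.val_rev]
        have := (a i).2
        omega
      rw [Finset.sum_congr rfl fun i _ => this i]
      simp
    rw [Finset.sum_congr rfl fun a _ => this a]
    simp
  have h3 : 2 * hh p N e + 2 * ∑ a : Fin p → Fin N, ∑ i, (a i : ℕ) = 2 * (N ^ p * (e + 1)) := by
    rw [← mul_add, h1]
  rw [h2] at h3
  rw [h3]
  ring

theorem t_nu2 (h1 : NU1Stmt) : NU2Stmt := by
  intro p k d j hk hd hpd hj
  obtain ⟨q, rfl⟩ : ∃ q, k = q + 1 := ⟨k - 1, by omega⟩
  have hq : 1 ≤ q := by omega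
  have e1 : q + 1 - 1 = q := by omega
  rw [e1] at hj
  have hc : p * (q + 1 - 1) ≤ (q + 1) * d + 1 := by
    rw [e1]
    nlinarith
  have h2 := h1 p (q + 1) ((q + 1) * d) (by omega) hc
  rw [e1] at h2
  set K := (q + 1) ^ p with hK
  have hK0 : 0 < K := by positivity
  have hjK : j ≤ q * K := by
    have h3 : 2 * j * (d + 1) ≤ 2 * (q * K) * (d + 1) := by
      calc 2 * j * (d + 1) ≤ (p + 2) * q * K := hj
        _ ≤ (2 * (d + 1)) * q * K := by gcongr; omega
        _ = 2 * (q * K) * (d + 1) := by ring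
    have h4 := Nat.le_of_mul_le_mul_right h3 (by omega)
    omega
  have hpow : (q + 1) ^ (p + 1) = (q + 1) * K := by rw [hK]; ring
  rw [hpow]
  obtain ⟨w, hw⟩ : ∃ w, (q + 1) * K = j + w := ⟨(q + 1) * K - j, by nlinarith [Nat.sub_add_cancel (show j ≤ (q + 1) * K by nlinarith)]⟩
  have e2 : (q + 1) * K - j = w := by omega
  rw [e2]
  have h5 : 2 * hh p (q + 1) ((q + 1) * d) + K * (p * q) = 2 * ((q + 1) * K) * d + 2 * K := by
    rw [h2]; ring
  have h6 : 2 * ((q + 1) * K) * (d + 1) = 2 * j * (d + 1) + 2 * (w * (d + 1)) := by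
    rw [hw]; ring
  nlinarith

theorem t_nu3 (h2 : NU2Stmt) (h1 : HLVStmt) : NU3Stmt := by
  intro p k d hk hd hp hdk
  by_cases hpd : p ≤ d
  · exact h2 p k d 1 hk hd hpd (by rw [mul_one]; exact hdk)
  · push Not at hpd
    have h3 : hh p k (k * p) ≤ (k ^ (p + 1) - 1) * (p + 1) := by
      refine h2 p k p 1 hk hp le_rfl ?_
      have h4 : 2 ≤ (k - 1) * k ^ p := by
        have h5 : 1 ≤ k - 1 := by omega
        have h6 : 2 ≤ k ^ p := by
          calc 2 ≤ k := hk
            _ = k ^ 1 := (pow_one k).symm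
            _ ≤ k ^ p := Nat.pow_le_pow_right (by omega) hp
        nlinarith
      calc 2 * 1 * (p + 1) ≤ (p + 2) * 2 := by omega
        _ ≤ (p + 2) * ((k - 1) * k ^ p) := Nat.mul_le_mul_left _ h4
        _ = (p + 2) * (k - 1) * k ^ p := by ring
    have h4 := h1 p k (p + 1) (k * p) (k ^ (p + 1) - 1) (p - d) (by nlinarith) h3 (by omega)
      (by rw [mul_comm]; exact Nat.mul_le_mul_left _ (by omega))
    have e1 : k * p - (p - d) * k = k * d := by
      obtain ⟨w, rfl⟩ : ∃ w, p = d + w := ⟨p - d, by omega⟩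
      have : d + w - d = w := by omega
      rw [this, mul_add, mul_comm w k]
      omega
    have e2 : p + 1 - (p - d) = d + 1 := by omega
    rw [e1, e2] at h4
    exact h4

theorem t_gen (h1 : VANStmt) (h2 : ONTStmt) (h3 : TERStmt) : GENStmt := by
  intro p k d N s hk hd hN hlt hs
  exact h3 _ _ _ _ hk (h2 p N k d s hk (h1 p N (d + 1) (k * d) s hN (by rwa [mul_comm N] at hlt) hs))

end Pool.FOS
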